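import Pool.Agent.OPH.Stmts

set_option autoImplicit false

namespace Pool.Agent.OPH.H77

open Finset Pool.Agent.OPG

theorem fi2 (hM : Ma2Stmt) (hD : Dv2Stmt) : Fi2Stmt := by
  intro n1 hn1
  obtain ⟨C, hC, hMA⟩ := hM n1 hn1
  obtain ⟨D, hD1, hDV⟩ := hD
  refine ⟨C ^ 2 * D + 2 * C + D + 4, by omega, ?_⟩
  intro M f e hCM hev hf hf1
  have hM4 : 4 ≤ M := by omega
  have hCM' : C ≤ M := by nlinarith [Nat.zero_le (C ^ 2 * D)]
  have h1 := hMA M f e hCM' hev hf hf1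
  have h2 := hDV M hM4
  set ℓ : ℕ := Nat.log 2 M with hℓ
  have hℓ1 : 1 ≤ ℓ := by
    rw [hℓ]; exact Nat.log_pos (by norm_num) (by omega)
  have h3 : DS f e M ^ 2 ≤ (NS f e M).card * ∑ n ∈ NS f e M, n.divisors.card ^ 2 := by
    unfold DS
    exact sq_sum_le_card_mul_sum_sq
  have h4 : ∑ n ∈ NS f e M, n.divisors.card ^ 2 ≤
      ∑ n ∈ Finset.Ioo ((M - 1) ^ 2) ((M + 1) ^ 2), n.divisors.card ^ 2 := by
    apply Finset.sum_le_sum_of_subset
    unfold NS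
    exact Finset.filter_subset _ _
  have h5 : DS f e M ^ 2 ≤ (NS f e M).card * (D * M * ℓ ^ D) :=
    h3.trans (Nat.mul_le_mul_left _ (h4.trans h2))
  have h6 : M ^ 2 ≤ (C * ℓ ^ C) ^ 2 * ((NS f e M).card * (D * M * ℓ ^ D)) := by
    calc M ^ 2 ≤ (C * ℓ ^ C * DS f e M) ^ 2 := Nat.pow_le_pow_left h1 2
      _ = (C * ℓ ^ C) ^ 2 * DS f e M ^ 2 := by ring
      _ ≤ _ := Nat.mul_le_mul_left _ h5
  have h7 : M * M ≤ (C ^ 2 * D * ℓ ^ (2 * C + D) * (NS f e M).card) * M := by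
    calc M * M = M ^ 2 := by ring
      _ ≤ _ := h6
      _ = _ := by rw [pow_add, pow_mul]; ring
  have h8 : M ≤ C ^ 2 * D * ℓ ^ (2 * C + D) * (NS f e M).card :=
    Nat.le_of_mul_le_mul_right h7 (by omega)
  refine h8.trans ?_
  apply Nat.mul_le_mul_right
  apply Nat.mul_le_mul
  · omega
  · apply Nat.pow_le_pow_right hℓ1
    omega

end Pool.Agent.OPH.H77
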